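import Pool.Agent.Helper19_BinPart.Main

/-!
# MP_8a294c_nt: the second binary digit of colored binary partition counts is NOT bounded

The conjecture says that for every `k ≥ 1` and `m = 2^(2k) - 1` the gap `u_m(n)` is bounded in
`n ≥ 1`. We prove that for `k = 5`, i.e. `m = 2^10 - 1 = 1023`, the gap `u_m(n)` is unbounded.
-/

open PowerSeries
open scoped PowerSeries.WithPiTopology

namespace Pool.Agent.Results.MP_8a294c_nt.UnboundedGap

/-- The power series `(1-x)^m ∏_{j ≥ 0} (1-x^(2^j))^m` in `ℤ⟦x⟧` (the infinite product is taken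
with respect to coefficientwise convergence; it converges, see `multipliable_factors`). -/
noncomputable def denom (m : ℕ) : ℤ⟦X⟧ := (1 - X) ^ m * ∏' j : ℕ, (1 - X ^ 2 ^ j) ^ m

/-- `c_m(n)`: the coefficients of the inverse series `(1-x)^(-m) ∏_{j ≥ 0} (1-x^(2^j))^(-m)`
(see `denom_mul_c`). -/
noncomputable def c (m n : ℕ) : ℤ := coeff n (invOfUnit (denom m) 1)

/-- The gap `u_m(n) = ν₂(q - 1)`, where `c_m(n) = 2^e q` with `q` odd, i.e. `q` is `c_m(n)` divided
by `2^(ν₂(c_m(n)))`; it is `⊤` when `q = 1`. -/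
noncomputable def gap (m n : ℕ) : ℕ∞ :=
  emultiplicity 2 (c m n / 2 ^ padicValInt 2 (c m n) - 1)

/-- The infinite product converges coefficientwise. -/
lemma multipliable_factors (m : ℕ) : Multipliable fun j : ℕ => ((1 : ℤ⟦X⟧) - X ^ 2 ^ j) ^ m := by
  have h1 : Multipliable fun j : ℕ => ((1 : ℤ⟦X⟧) - X ^ 2 ^ j) := by
    simp_rw [sub_eq_add_neg]
    apply PowerSeries.WithPiTopology.multipliable_one_add_of_tendsto_order_atTop_nhds_top
    refine ENat.tendsto_nhds_top_iff_natCast_lt.mpr (fun n ↦ Filter.eventually_atTop.mpr ⟨n, ?_⟩)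
    intro k hk
    rw [order_neg, order_X_pow]
    have : n < 2 ^ k := lt_of_le_of_lt hk k.lt_two_pow_self
    exact_mod_cast this
  induction m with
  | zero => simp
  | succ m ih =>
    simp_rw [pow_succ]
    exact ih.mul h1

/-- finite partial products -/
noncomputable def P (m N : ℕ) : ℤ⟦X⟧ := ∏ j ∈ Finset.range N, (1 - X ^ 2 ^ j) ^ m

/-- the infinite product -/
noncomputable def D (m : ℕ) : ℤ⟦X⟧ := ∏' j : ℕ, (1 - X ^ 2 ^ j) ^ m

lemma P_succ (m N : ℕ) : P m (N + 1) = (1 - X) ^ m * Helper19_BinPart.dbl (P m N) := by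
  unfold P
  rw [Finset.prod_range_succ', map_prod, mul_comm]
  congr 1
  · simp
  · refine Finset.prod_congr rfl fun j _ => ?_
    rw [map_pow, map_sub, map_one, map_pow, Helper19_BinPart.dbl_X, ← pow_mul, pow_succ, mul_comm]

lemma eventually_coeff (m n : ℕ) : ∀ᶠ N in Filter.atTop, coeff n (P m N) = coeff n (D m) := by
  have h := (multipliable_factors m).hasProd.tendsto_prod_nat
  have h2 := ((PowerSeries.WithPiTopology.continuous_coeff ℤ n).tendsto _).comp h
  rw [nhds_discrete] at h2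
  exact Filter.tendsto_pure.mp h2

lemma D_eq (m : ℕ) : D m = (1 - X) ^ m * Helper19_BinPart.dbl (D m) := by
  ext n
  have h1 : ∀ᶠ N in Filter.atTop, ∀ i ∈ Finset.range (n + 1), coeff i (P m N) = coeff i (D m) :=
    (Filter.eventually_all_finset _).mpr fun i _ => eventually_coeff m i
  have h2 : ∀ᶠ N in Filter.atTop, coeff n (P m (N + 1)) = coeff n (D m) :=
    (Filter.tendsto_add_atTop_nat 1).eventually (eventually_coeff m n)
  obtain ⟨N, h1, h2⟩ := (h1.and h2).exists
  rw [← h2, P_succ, PowerSeries.coeff_mul, PowerSeries.coeff_mul]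
  refine Finset.sum_congr rfl fun p hp => ?_
  have hp' := Finset.HasAntidiagonal.mem_antidiagonal.mp hp
  congr 1
  rw [Helper19_BinPart.coeff_dbl, Helper19_BinPart.coeff_dbl]
  split_ifs
  · exact h1 _ (Finset.mem_range.mpr (by omega))
  · rfl

lemma coeff_zero_D (m : ℕ) : coeff 0 (D m) = 1 := by
  obtain ⟨N, h⟩ := (eventually_coeff m 0).exists
  rw [← h, P, PowerSeries.coeff_zero_eq_constantCoeff, map_prod]
  simp

lemma constantCoeff_denom (m : ℕ) : constantCoeff (denom m) = 1 := by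
  change constantCoeff ((1 - X) ^ m * D m) = 1
  rw [map_mul, ← PowerSeries.coeff_zero_eq_constantCoeff_apply (D m), coeff_zero_D]
  simp

/-- The generating function of `c_m(n)` is the inverse of `denom m`. -/
lemma denom_mul_c (m : ℕ) : denom m * PowerSeries.mk (c m) = 1 := by
  have h : PowerSeries.mk (c m) = invOfUnit (denom m) 1 := by ext n; simp [c]
  rw [h]
  exact PowerSeries.mul_invOfUnit _ _ (by rw [constantCoeff_denom]; simp)

/-- The auxiliary series `G = (1-x)^(-1) F`, where `F` is the generating function of `c 1023`. -/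
lemma exists_G : ∃ G : ℤ⟦X⟧, G = Helper19_BinPart.g * Helper19_BinPart.dbl G ∧ coeff 0 G = 1 ∧
    (1 - X) * G = invOfUnit (denom 1023) 1 := by
  obtain ⟨Dinv, hD⟩ : ∃ Dinv : ℤ⟦X⟧, D 1023 * Dinv = 1 :=
    ⟨_, PowerSeries.mul_invOfUnit (D 1023) 1 (by
      rw [← PowerSeries.coeff_zero_eq_constantCoeff_apply, coeff_zero_D]; simp)⟩
  have hZ1 : (1 - X) * Helper19_BinPart.Z = 1 := Helper19_BinPart.one_sub_X_mul_Z
  have hdZ := Helper19_BinPart.dbl_Z
  have hcZ : coeff 0 Helper19_BinPart.Z = 1 := by simp [Helper19_BinPart.Z]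
  have hg : Helper19_BinPart.g = (1 + X) ^ 1024 * Helper19_BinPart.Z ^ 1023 := rfl
  generalize Helper19_BinPart.Z = Z at hZ1 hdZ hcZ hg
  rw [hg]
  refine ⟨Z ^ 1024 * Dinv, ?_, ?_, ?_⟩
  · have hdD : Helper19_BinPart.dbl (D 1023) * Helper19_BinPart.dbl Dinv = 1 := by
      rw [← map_mul, hD, map_one]
    have hDinv2 : Dinv = Z ^ 1023 * Helper19_BinPart.dbl Dinv := by
      have h3 : (1 - X : ℤ⟦X⟧) ^ 1023 * Z ^ 1023 = 1 := by rw [← mul_pow, hZ1, one_pow]
      have h4 := D_eq 1023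
      generalize Helper19_BinPart.dbl (D 1023) = d at hdD h4
      generalize Helper19_BinPart.dbl Dinv = di at hdD ⊢
      generalize (1 - X : ℤ⟦X⟧) ^ 1023 = a at h3 h4
      generalize Z ^ 1023 = z at h3 ⊢
      generalize D 1023 = D' at hD h4
      rw [h4] at hD
      linear_combination (z * di) * hD - Dinv * z * a * hdD - Dinv * h3
    have h5 : Z ^ 1024 = (1 + X) ^ 1024 * Helper19_BinPart.dbl Z ^ 1024 := by
      conv_lhs => rw [hdZ]
      rw [mul_pow]
    rw [map_mul, map_pow]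
    generalize Helper19_BinPart.dbl Dinv = di at hDinv2 ⊢
    generalize Helper19_BinPart.dbl Z ^ 1024 = y at h5 ⊢
    generalize (1 + X : ℤ⟦X⟧) ^ 1024 = b at h5 ⊢
    generalize Z ^ 1024 = w at h5 ⊢
    generalize Z ^ 1023 = z at hDinv2 ⊢
    rw [h5, hDinv2]
    ring
  · have h2 : coeff 0 Dinv = 1 := by
      have := congrArg (coeff 0) hD
      rw [Helper19_BinPart.coeff_zero_mul', coeff_zero_D, one_mul] at this
      rw [this]; simp
    rw [Helper19_BinPart.coeff_zero_mul', h2, mul_one]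
    rw [PowerSeries.coeff_zero_eq_constantCoeff] at hcZ ⊢
    rw [map_pow, hcZ, one_pow]
  · have h6 : denom 1023 * ((1 - X) * (Z ^ 1024 * Dinv)) = 1 := by
      calc denom 1023 * ((1 - X) * (Z ^ 1024 * Dinv))
          = ((1 - X) ^ 1023 * (1 - X) * Z ^ 1024) * (D 1023 * Dinv) := by
            change ((1 - X) ^ 1023 * D 1023) * ((1 - X) * (Z ^ 1024 * Dinv)) = _
            generalize (1 - X : ℤ⟦X⟧) ^ 1023 = a
            generalize Z ^ 1024 = z
            ring
        _ = 1 := by rw [hD, ← pow_succ, ← mul_pow, hZ1, one_pow, mul_one]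
    have h7 : denom 1023 * invOfUnit (denom 1023) 1 = 1 :=
      PowerSeries.mul_invOfUnit _ _ (by rw [constantCoeff_denom]; simp)
    generalize (1 - X) * (Z ^ 1024 * Dinv) = F at h6 ⊢
    generalize invOfUnit (denom 1023) 1 = F' at h7 ⊢
    generalize denom 1023 = q at h6 h7
    linear_combination F' * h6 - F * h7

/-- **Disproof of Q1** (for `k = 5`): for `m = 2^(2·5) - 1 = 1023` the gap `u_m(n)`, `n ≥ 1`, is not
bounded. -/
theorem result : ∀ C : ℕ, ∃ n : ℕ, 1 ≤ n ∧ (C : ℕ∞) < gap (2 ^ (2 * 5) - 1) n := by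
  intro C
  obtain ⟨G, hG, hG0, hF⟩ := exists_G
  obtain ⟨n, hn, t, ht⟩ := Helper19_BinPart.main_lift hG hG0 C
  refine ⟨n, hn, ?_⟩
  rw [hF] at ht
  have hc : c (2 ^ (2 * 5) - 1) n = 2 ^ 11 * (1 + 2 ^ (13 + C) * t) := by
    have : c (2 ^ (2 * 5) - 1) n = coeff n (invOfUnit (denom 1023) 1) := by
      rw [c]; norm_num
    rw [this]
    rw [pow_add] at ht ⊢
    linear_combination ht
  have hq0 : (1 + 2 ^ (13 + C) * t : ℤ) ≠ 0 := by
    intro h
    have : (2 : ℤ) ∣ 1 := by
      refine ⟨-(2 ^ (12 + C) * t), ?_⟩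
      have e : (2 : ℤ) ^ (13 + C) = 2 * 2 ^ (12 + C) := by ring
      rw [e] at h
      linarith
    norm_num at this
  have hval : padicValInt 2 (c (2 ^ (2 * 5) - 1) n) = 11 := by
    rw [hc, padicValInt.mul (by norm_num) hq0]
    have h1 : padicValInt 2 (2 ^ 11 : ℤ) = 11 := by
      have := padicValInt.self (p := 2) (by norm_num)
      have h2 : padicValInt 2 ((2 : ℤ) ^ 11) = padicValNat 2 (2 ^ 11) := by
        rw [padicValInt]; norm_num
      rw [h2, padicValNat.prime_pow]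
    have h2 : padicValInt 2 (1 + 2 ^ (13 + C) * t : ℤ) = 0 := by
      apply padicValInt.eq_zero_of_not_dvd
      intro h
      have h' : (2 : ℤ) ∣ 1 + 2 ^ (13 + C) * t := by exact_mod_cast h
      have h3 : (2 : ℤ) ∣ 2 ^ (13 + C) * t :=
        Dvd.dvd.mul_right (dvd_pow_self 2 (by omega)) t
      have h4 := (Int.dvd_add_left h3).mp h'
      norm_num at h4
    rw [h1, h2]
  have hgap : gap (2 ^ (2 * 5) - 1) n = emultiplicity 2 ((2 : ℤ) ^ (13 + C) * t) := by
    rw [gap, hval, hc, Int.mul_ediv_cancel_left _ (by norm_num)]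
    congr 1
    ring
  rw [hgap]
  have : ((13 + C : ℕ) : ℕ∞) ≤ emultiplicity 2 ((2 : ℤ) ^ (13 + C) * t) :=
    le_emultiplicity_of_pow_dvd (Dvd.intro _ rfl)
  refine lt_of_lt_of_le ?_ this
  exact_mod_cast (by omega : C < 13 + C)

end Pool.Agent.Results.MP_8a294c_nt.UnboundedGap
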